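import Pool.Agent.PDZ.Stmts
import Pool.Agent.Helper89_PDZ.Evn

/-!
ASM: the tubes and the rest.
-/

set_option autoImplicit false

namespace Pool.Agent.PDZ.H89

open Multiset

/-- `P` without a leftover `R` with `sm 6 R ≤ r` is realised with the help of `N` vertices of degree 3
and `M1, M2, M4` vertices of degree `1, 2, 4`. -/
def Pk (P : Multiset ℕ) (n m1 m2 m4 r : ℕ) : Prop :=
  ∃ (P' R : Multiset ℕ) (N M1 M2 M4 : ℕ), P = P' + R ∧ sm 6 R ≤ r ∧
    Pz (P' + replicate N 3 + replicate M1 1 + replicate M2 2 + replicate M4 4) ∧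
    6 * N ≤ n ∧ M1 ≤ m1 ∧ 2 * M2 ≤ m2 ∧ 2 * M4 ≤ m4

theorem sm_add (k : ℕ) (P Q : Multiset ℕ) : sm k (P + Q) = sm k P + sm k Q := by
  simp [sm]

theorem sm_zero (k : ℕ) : sm k 0 = 0 := by
  simp [sm]

theorem pz0 : Pz 0 := pz_of_fil fil_nil

theorem pk_zero : Pk 0 0 0 0 0 0 :=
  ⟨0, 0, 0, 0, 0, 0, by simp, by simp [sm], by simpa using pz0, by simp, by simp, by simp, by simp⟩

theorem pk_add {P Q : Multiset ℕ} {n m1 m2 m4 r n' m1' m2' m4' r' : ℕ}
    (h : Pk P n m1 m2 m4 r) (h' : Pk Q n' m1' m2' m4' r') :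
    Pk (P + Q) (n + n') (m1 + m1') (m2 + m2') (m4 + m4') (r + r') := by
  obtain ⟨P', R, N, M1, M2, M4, rfl, hr, hz, hn, h1, h2, h4⟩ := h
  obtain ⟨Q', R', N', M1', M2', M4', rfl, hr', hz', hn', h1', h2', h4'⟩ := h'
  refine ⟨P' + Q', R + R', N + N', M1 + M1', M2 + M2', M4 + M4', by abel, ?_, ?_, by omega,
    by omega, by omega, by omega⟩
  · rw [sm_add]
    omega
  · have h3 := pz_add hz hz'
    have e : P' + Q' + replicate (N + N') 3 + replicate (M1 + M1') 1 + replicate (M2 + M2') 2 +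
        replicate (M4 + M4') 4 =
        (P' + replicate N 3 + replicate M1 1 + replicate M2 2 + replicate M4 4) +
        (Q' + replicate N' 3 + replicate M1' 1 + replicate M2' 2 + replicate M4' 4) := by
      simp only [replicate_add]
      abel
    rw [e]
    exact h3

theorem pk_mono {P : Multiset ℕ} {n m1 m2 m4 r n' m1' m2' m4' r' : ℕ}
    (h : Pk P n m1 m2 m4 r) (hn : n ≤ n') (h1 : m1 ≤ m1') (h2 : m2 ≤ m2') (h4 : m4 ≤ m4')
    (hr : r ≤ r') : Pk P n' m1' m2' m4' r' := by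
  obtain ⟨P', R, N, M1, M2, M4, rfl, kr, hz, kn, k1, k2, k4⟩ := h
  exact ⟨P', R, N, M1, M2, M4, rfl, kr.trans hr, hz, kn.trans hn, k1.trans h1, k2.trans h2,
    k4.trans h4⟩

theorem pk_small {Δ : ℕ} {P : Multiset ℕ} (hc : card P < 3) (h : ∀ v ∈ P, v ≤ Δ) :
    Pk P 0 0 0 0 (2 * Δ) := by
  refine ⟨0, P, 0, 0, 0, 0, by simp, ?_, by simpa using pz0, by simp, by simp, by simp, by simp⟩
  have h1 : (P.map fun v => v - 6).sum ≤ card (P.map fun v => v - 6) • Δ := by
    apply Multiset.sum_le_card_nsmul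
    intro x hx
    obtain ⟨v, hv, rfl⟩ := mem_map.mp hx
    have := h v hv
    omega
  rw [card_map, smul_eq_mul] at h1
  have h2 : card P * Δ ≤ 2 * Δ := Nat.mul_le_mul_right _ (by omega)
  exact h1.trans h2

/-- the condition of `TT` with the constant `K` -/
def TtK (K : ℕ) : Prop := ∀ t ≤ 6, ∀ (Δ : ℕ) (P : Multiset ℕ), 3 ≤ card P →
  (∀ v ∈ P, 6 + t ≤ v ∧ v ≤ Δ ∧ v % 2 = t % 2) →
  ∃ N : ℕ, Pz (P + replicate N 3) ∧ 6 * N ≤ 2 * t * card P + 3 * sm (6 + t) P + K * Δ

def TbK (K : ℕ) : Prop := ∀ i : ℕ, (i = 1 ∨ i = 2 ∨ i = 4) → ∀ (Δ : ℕ) (P : Multiset ℕ),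
  3 ≤ card P → (∀ v ∈ P, 12 ≤ v ∧ v ≤ Δ) →
  ∃ N M : ℕ, Pz (P + replicate N 3 + replicate M i) ∧ 6 * N ≤ 12 * card P + K * Δ ∧
    PDS.cap i * M ≤ sm 12 P + K * Δ

def TeK (K : ℕ) : Prop := ∀ i : ℕ, (i = 1 ∨ i = 2 ∨ i = 4) → ∀ (Δ : ℕ) (P : Multiset ℕ),
  3 ≤ card P → (∀ v ∈ P, 13 ≤ v ∧ v ≤ Δ ∧ v % 2 = 1) →
  ∃ N M : ℕ, Pz (P + replicate N 3 + replicate M i) ∧
    6 * N ≤ 12 * card P + 3 * sm 13 P + K * Δ ∧ PDS.cap i * M ≤ card P + K * Δ

theorem job_t {K : ℕ} (h : TtK K) {t Δ : ℕ} (ht : t ≤ 6) {P : Multiset ℕ}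
    (hP : ∀ v ∈ P, 6 + t ≤ v ∧ v ≤ Δ ∧ v % 2 = t % 2) :
    Pk P (2 * t * card P + 3 * sm (6 + t) P + K * Δ) 0 0 0 (2 * Δ) := by
  by_cases hc : card P < 3
  · exact pk_mono (pk_small hc fun v hv => (hP v hv).2.1) (Nat.zero_le _) le_rfl le_rfl le_rfl
      le_rfl
  · obtain ⟨N, hN, hN'⟩ := h t ht Δ P (by omega) hP
    exact ⟨P, 0, N, 0, 0, 0, by simp, by simp [sm], by simpa using hN, hN', le_rfl, by simp,
      by simp⟩

/-- the entry `i` gets `x`, the others `0` -/
def ei (i j x : ℕ) : ℕ := if j = i then x else 0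

theorem job_i {Δ n x : ℕ} {P : Multiset ℕ} {i : ℕ} (hi : i = 1 ∨ i = 2 ∨ i = 4) (N M : ℕ)
    (hz : Pz (P + replicate N 3 + replicate M i)) (hN : 6 * N ≤ n)
    (hM : PDS.cap i * M ≤ x) :
    Pk P n (ei i 1 x) (ei i 2 x) (ei i 4 x) (2 * Δ) := by
  rcases hi with rfl | rfl | rfl
  · refine ⟨P, 0, N, M, 0, 0, by simp, by simp [sm], by simpa using hz, hN, ?_, by simp, by simp⟩
    simpa [PDS.cap, ei] using hM
  · refine ⟨P, 0, N, 0, M, 0, by simp, by simp [sm], by simpa using hz, hN, by simp, ?_, by simp⟩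
    simpa [PDS.cap, ei] using hM
  · refine ⟨P, 0, N, 0, 0, M, by simp, by simp [sm], by simpa using hz, hN, by simp, by simp, ?_⟩
    simpa [PDS.cap, ei] using hM

theorem job_b {K : ℕ} (h : TbK K) {i Δ : ℕ} (hi : i = 1 ∨ i = 2 ∨ i = 4) {P : Multiset ℕ}
    (hP : ∀ v ∈ P, 12 ≤ v ∧ v ≤ Δ) :
    Pk P (12 * card P + K * Δ) (ei i 1 (sm 12 P + K * Δ)) (ei i 2 (sm 12 P + K * Δ))
      (ei i 4 (sm 12 P + K * Δ)) (2 * Δ) := by
  by_cases hc : card P < 3
  · exact pk_mono (pk_small hc fun v hv => (hP v hv).2) (Nat.zero_le _) (Nat.zero_le _)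
      (Nat.zero_le _) (Nat.zero_le _) le_rfl
  · obtain ⟨N, M, hz, hN, hM⟩ := h i hi Δ P (by omega) hP
    exact job_i hi N M hz hN hM

theorem job_e {K : ℕ} (h : TeK K) {i Δ : ℕ} (hi : i = 1 ∨ i = 2 ∨ i = 4) {P : Multiset ℕ}
    (hP : ∀ v ∈ P, 13 ≤ v ∧ v ≤ Δ ∧ v % 2 = 1) :
    Pk P (12 * card P + 3 * sm 13 P + K * Δ) (ei i 1 (card P + K * Δ))
      (ei i 2 (card P + K * Δ)) (ei i 4 (card P + K * Δ)) (2 * Δ) := by
  by_cases hc : card P < 3
  · exact pk_mono (pk_small hc fun v hv => (hP v hv).2.1) (Nat.zero_le _) (Nat.zero_le _)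
      (Nat.zero_le _) (Nat.zero_le _) le_rfl
  · obtain ⟨N, M, hz, hN, hM⟩ := h i hi Δ P (by omega) hP
    exact job_i hi N M hz hN hM

/-- the entries `7, .., 12` -/
theorem job_a {K : ℕ} (h : TtK K) (Δ : ℕ) (hΔ : 12 ≤ Δ) : ∀ n ≤ 6, ∀ A : Multiset ℕ,
    (∀ v ∈ A, 7 ≤ v ∧ v ≤ 6 + n) → Pk A (2 * sm 6 A + n * (K * Δ)) 0 0 0 (n * (2 * Δ)) := by
  intro n
  induction n with
  | zero =>
    intro _ A hA
    have h0 : A = 0 := by
      apply eq_zero_of_forall_notMem
      intro v hv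
      have := hA v hv
      omega
    subst h0
    exact pk_mono pk_zero (Nat.zero_le _) le_rfl le_rfl le_rfl (Nat.zero_le _)
  | succ n ih =>
    intro hn A hA
    have h1 := ih (by omega) (A.filter fun v => ¬ v = 6 + (n + 1)) (by
      intro v hv
      rw [mem_filter] at hv
      have := hA v hv.1
      omega)
    have h2 := job_t h (t := n + 1) (Δ := Δ) hn (P := A.filter fun v => v = 6 + (n + 1)) (by
      intro v hv
      rw [mem_filter] at hv
      have := hA v hv.1
      omega)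
    have h3 := pk_add h2 h1
    rw [filter_add_not] at h3
    have h4 : sm 6 A = sm 6 (A.filter fun v => v = 6 + (n + 1)) +
        sm 6 (A.filter fun v => ¬ v = 6 + (n + 1)) := by
      rw [← sm_add, filter_add_not]
    have h5 : ∀ k, sm k (A.filter fun v => v = 6 + (n + 1)) =
        card (A.filter fun v => v = 6 + (n + 1)) * (6 + (n + 1) - k) := by
      intro k
      have : (A.filter fun v => v = 6 + (n + 1)).map (fun v => v - k) =
          replicate (card (A.filter fun v => v = 6 + (n + 1))) (6 + (n + 1) - k) := by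
        rw [← map_const']
        apply map_congr rfl
        intro v hv
        rw [mem_filter] at hv
        rw [hv.2]
      rw [sm, this, sum_replicate, smul_eq_mul]
    have h6 := h5 6
    have h7 := h5 (6 + (n + 1))
    rw [Nat.add_sub_cancel_left] at h6
    rw [Nat.sub_self, mul_zero] at h7
    refine pk_mono h3 ?_ le_rfl le_rfl le_rfl ?_
    · rw [h7, h4, h6]
      have : (n + 1) * (K * Δ) = n * (K * Δ) + K * Δ := by ring
      rw [this]
      have : 2 * (n + 1) * card (A.filter fun v => v = 6 + (n + 1)) =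
          2 * (card (A.filter fun v => v = 6 + (n + 1)) * (n + 1)) := by ring
      omega
    · have : (n + 1) * (2 * Δ) = n * (2 * Δ) + 2 * Δ := by ring
      omega

/-! ### the bins -/

/-- the first components of the members with the label `b` -/
def pt (b : Bool) (A : Multiset (ℕ × Bool)) : Multiset ℕ := (A.filter fun x => x.2 = b).map Prod.fst

theorem pt_add (b : Bool) (A B : Multiset (ℕ × Bool)) : pt b (A + B) = pt b A + pt b B := by
  rw [pt, filter_add, map_add]
  rfl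

theorem pt_zero (b : Bool) : pt b 0 = 0 := rfl

theorem pt_same (b : Bool) (P : Multiset ℕ) : pt b (P.map fun v => (v, b)) = P := by
  induction P using Multiset.induction_on with
  | empty => rfl
  | cons v P ih =>
    rw [map_cons, pt, filter_cons_of_pos (p := fun x : ℕ × Bool => x.2 = b) _ rfl, map_cons]
    exact congrArg (v ::ₘ ·) ih

theorem pt_other {b c : Bool} (hbc : b ≠ c) (P : Multiset ℕ) : pt b (P.map fun v => (v, c)) = 0 := by
  induction P using Multiset.induction_on with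
  | empty => rfl
  | cons v P ih =>
    rw [map_cons, pt, filter_cons_of_neg _ (fun h => hbc h.symm)]
    exact ih

/-- the weights of the blocks -/
def wt (x : ℕ × Bool) : ℕ := if x.2 = true then x.1 - 12 else 1

theorem wt_sum (A : Multiset (ℕ × Bool)) :
    (A.map wt).sum = sm 12 (pt true A) + card (pt false A) := by
  induction A using Multiset.induction_on with
  | empty => rfl
  | cons x A ih =>
    obtain ⟨v, b⟩ := x
    rw [map_cons, sum_cons, ih]
    cases b with
    | true =>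
      rw [pt, pt, pt, pt, filter_cons_of_pos (p := fun x : ℕ × Bool => x.2 = true) _ rfl,
        filter_cons_of_neg _ (by simp), map_cons, sm, sm, map_cons, sum_cons]
      simp only [wt, if_true]
      omega
    | false =>
      rw [pt, pt, pt, pt, filter_cons_of_neg _ (by simp),
        filter_cons_of_pos (p := fun x : ℕ × Bool => x.2 = false) _ rfl, map_cons, card_cons]
      simp only [wt, Bool.false_eq_true, if_false]
      omega

theorem job_bin {K Δ : ℕ} (hb : TbK K) (he : TeK K) {i : ℕ} (hi : i = 1 ∨ i = 2 ∨ i = 4)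
    {A : Multiset (ℕ × Bool)} (hX : ∀ v ∈ pt true A, 12 ≤ v ∧ v ≤ Δ)
    (hY : ∀ v ∈ pt false A, 13 ≤ v ∧ v ≤ Δ ∧ v % 2 = 1) {b : ℕ}
    (h : A = 0 ∨ (A.map wt).sum + (2 * (K * Δ) + 1) ≤ b) :
    ∃ x, x ≤ b ∧ x ≤ sm 12 (pt true A) + card (pt false A) + 2 * (K * Δ) ∧
      Pk (pt true A + pt false A) (12 * card (pt true A) +
        (12 * card (pt false A) + 3 * sm 13 (pt false A)) + 2 * (K * Δ)) (ei i 1 x) (ei i 2 x)
        (ei i 4 x) (4 * Δ) := by
  rcases h with rfl | h
  · refine ⟨0, Nat.zero_le _, Nat.zero_le _, ?_⟩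
    exact pk_mono pk_zero (Nat.zero_le _) (Nat.zero_le _) (Nat.zero_le _) (Nat.zero_le _)
      (Nat.zero_le _)
  · refine ⟨sm 12 (pt true A) + card (pt false A) + 2 * (K * Δ), ?_, le_rfl, ?_⟩
    · rw [wt_sum] at h
      omega
    · have h1 := pk_add (job_b hb hi hX) (job_e he hi hY)
      have h2 : ∀ j, ei i j (sm 12 (pt true A) + K * Δ) + ei i j (card (pt false A) + K * Δ) ≤
          ei i j (sm 12 (pt true A) + card (pt false A) + 2 * (K * Δ)) := by
        intro j
        unfold ei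
        split_ifs <;> omega
      exact pk_mono h1 (by omega) (h2 1) (h2 2) (h2 4) (by omega)

theorem bins {K : ℕ} (hb : TbK K) (he : TeK K) {Δ : ℕ} (hΔ : 12 ≤ Δ) {X Y S : Multiset ℕ}
    (hX : ∀ v ∈ X, 12 ≤ v ∧ v ≤ Δ) (hY : ∀ v ∈ Y, 13 ≤ v ∧ v ≤ Δ ∧ v % 2 = 1)
    (h : (X = 0 ∧ Y = 0) ∨ sm 12 X + card Y + (10 * K + 10) * Δ ≤ UU S) :
    ∃ m1 m2 m4 : ℕ, m1 ≤ S.count 1 ∧ m2 ≤ 2 * S.count 2 ∧ m4 ≤ 2 * S.count 4 ∧
      m1 + m2 + m4 ≤ sm 12 X + card Y + 6 * (K * Δ) ∧
      Pk (X + Y) (12 * card X + (12 * card Y + 3 * sm 13 Y) + 6 * (K * Δ)) m1 m2 m4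
        (12 * Δ) := by
  rcases h with ⟨rfl, rfl⟩ | h
  · exact ⟨0, 0, 0, Nat.zero_le _, Nat.zero_le _, Nat.zero_le _, Nat.zero_le _,
      pk_mono pk_zero (Nat.zero_le _) le_rfl le_rfl le_rfl (Nat.zero_le _)⟩
  · set L : Multiset (ℕ × Bool) := X.map (fun v => (v, true)) + Y.map (fun v => (v, false)) with hL
    have hLX : pt true L = X := by
      rw [hL, pt_add, pt_same, pt_other (by simp), add_zero]
    have hLY : pt false L = Y := by
      rw [hL, pt_add, pt_same, pt_other (by simp), zero_add]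
    have hUU : UU S = S.count 1 + 2 * S.count 2 + 2 * S.count 4 := rfl
    obtain ⟨A, hA, hA'⟩ := PDS.H48.bin (ℕ × Bool) wt Δ (2 * (K * Δ) + 1)
      ![S.count 1, 2 * S.count 2, 0, 2 * S.count 4, 0] L (by
        intro x hx
        rw [hL, mem_add, mem_map, mem_map] at hx
        rcases hx with ⟨v, hv, rfl⟩ | ⟨v, hv, rfl⟩
        · have := hX v hv
          simp only [wt, if_true]
          omega
        · simp only [wt, Bool.false_eq_true, if_false]
          omega) (by
        rw [wt_sum, hLX, hLY]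
        have h1 : ∑ i : Fin 5, (![S.count 1, 2 * S.count 2, 0, 2 * S.count 4, 0] : Fin 5 → ℕ) i =
            UU S := by
          rw [hUU, Fin.sum_univ_five]
          simp
        rw [h1]
        have h2 : (10 * K + 10) * Δ = 10 * (K * Δ) + 10 * Δ := by ring
        omega)
    rw [Fin.sum_univ_five] at hA
    have a0 := hA' 0
    have a1 := hA' 1
    have a2 := hA' 2
    have a3 := hA' 3
    have a4 := hA' 4
    have e2 : A 2 = 0 := by
      rcases a2 with h | h
      · exact h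
      · exfalso
        have : (![S.count 1, 2 * S.count 2, 0, 2 * S.count 4, 0] : Fin 5 → ℕ) 2 = 0 := rfl
        omega
    have e4 : A 4 = 0 := by
      rcases a4 with h | h
      · exact h
      · exfalso
        have : (![S.count 1, 2 * S.count 2, 0, 2 * S.count 4, 0] : Fin 5 → ℕ) 4 = 0 := rfl
        omega
    rw [e2, e4, add_zero, add_zero] at hA
    have hXs : X = pt true (A 0) + pt true (A 1) + pt true (A 3) := by
      rw [← hLX, ← hA, pt_add, pt_add]
    have hYs : Y = pt false (A 0) + pt false (A 1) + pt false (A 3) := by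
      rw [← hLY, ← hA, pt_add, pt_add]
    have hX' : ∀ j, (j = 0 ∨ j = 1 ∨ j = 3) → ∀ v ∈ pt true (A j), 12 ≤ v ∧ v ≤ Δ := by
      intro j hj v hv
      apply hX v
      rw [hXs, mem_add, mem_add]
      rcases hj with rfl | rfl | rfl
      · exact Or.inl (Or.inl hv)
      · exact Or.inl (Or.inr hv)
      · exact Or.inr hv
    have hY' : ∀ j, (j = 0 ∨ j = 1 ∨ j = 3) → ∀ v ∈ pt false (A j),
        13 ≤ v ∧ v ≤ Δ ∧ v % 2 = 1 := by
      intro j hj v hv
      apply hY v
      rw [hYs, mem_add, mem_add]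
      rcases hj with rfl | rfl | rfl
      · exact Or.inl (Or.inl hv)
      · exact Or.inl (Or.inr hv)
      · exact Or.inr hv
    obtain ⟨x0, b0, c0, p0⟩ := job_bin hb he (i := 1) (Or.inl rfl) (hX' 0 (Or.inl rfl))
      (hY' 0 (Or.inl rfl)) a0
    obtain ⟨x1, b1, c1, p1⟩ := job_bin hb he (i := 2) (Or.inr (Or.inl rfl))
      (hX' 1 (Or.inr (Or.inl rfl))) (hY' 1 (Or.inr (Or.inl rfl))) a1
    obtain ⟨x3, b3, c3, p3⟩ := job_bin hb he (i := 4) (Or.inr (Or.inr rfl))
      (hX' 3 (Or.inr (Or.inr rfl))) (hY' 3 (Or.inr (Or.inr rfl))) a3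
    refine ⟨x0, x1, x3, b0, b1, b3, ?_, ?_⟩
    · rw [hXs, hYs, sm_add, sm_add, card_add, card_add]
      omega
    · have h1 := pk_add (pk_add p0 p1) p3
      have h2 : pt true (A 0) + pt false (A 0) + (pt true (A 1) + pt false (A 1)) +
          (pt true (A 3) + pt false (A 3)) = X + Y := by
        rw [hXs, hYs]
        abel
      rw [h2] at h1
      refine pk_mono h1 ?_ ?_ ?_ ?_ ?_
      · rw [hXs, hYs, sm_add, sm_add, card_add, card_add, card_add, card_add]
        omega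
      · simp [ei]
      · simp [ei]
      · simp [ei]
      · omega

theorem asm (htt : TtStmt) (htb : TbStmt) (hte : TeStmt) : AsmStmt := by
  obtain ⟨K1, h1⟩ := htt
  obtain ⟨K2, h2⟩ := htb
  obtain ⟨K3, h3⟩ := hte
  have tt : TtK (K1 + K2 + K3) := by
    intro t ht Δ P hc hP
    obtain ⟨N, hz, hN⟩ := h1 t ht Δ P hc hP
    refine ⟨N, hz, hN.trans ?_⟩
    have : K1 * Δ ≤ (K1 + K2 + K3) * Δ := Nat.mul_le_mul_right _ (by omega)
    omega
  have tb : TbK (K1 + K2 + K3) := by
    intro i hi Δ P hc hP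
    obtain ⟨N, M, hz, hN, hM⟩ := h2 i hi Δ P hc hP
    have : K2 * Δ ≤ (K1 + K2 + K3) * Δ := Nat.mul_le_mul_right _ (by omega)
    exact ⟨N, M, hz, hN.trans (by omega), hM.trans (by omega)⟩
  have te : TeK (K1 + K2 + K3) := by
    intro i hi Δ P hc hP
    obtain ⟨N, M, hz, hN, hM⟩ := h3 i hi Δ P hc hP
    have : K3 * Δ ≤ (K1 + K2 + K3) * Δ := Nat.mul_le_mul_right _ (by omega)
    exact ⟨N, M, hz, hN.trans (by omega), hM.trans (by omega)⟩
  generalize K1 + K2 + K3 = K at tt tb te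
  refine ⟨32 * K + 60084, ?_⟩
  intro Δ S A X Y0 Y1 Y2 Z hΔ hS hA hX hY0 hY1 hY2 hZ hsum hbin hn hd
  have hK : (32 * K + 60084) * Δ = 32 * (K * Δ) + 60084 * Δ := by ring
  have hK' : (10 * K + 10) * Δ = 10 * (K * Δ) + 10 * Δ := by ring
  rw [hK] at hbin hn hd
  have jA := job_a tt Δ hΔ 6 le_rfl A hA
  have jY0 := job_t tt (t := 6) (Δ := Δ) le_rfl (P := Y0) (by
    intro v hv
    have := hY0 v hv
    omega)
  have jY2 := job_t tt (t := 5) (Δ := Δ) (by omega) (P := Y2) (by
    intro v hv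
    have := hY2 v hv
    omega)
  obtain ⟨m1, m2, m4, hm1, hm2, hm4, hm, jB⟩ := bins tb te hΔ hX hY1 (S := S) (by
    rcases hbin with h | h
    · exact Or.inl h
    · right
      omega)
  obtain ⟨P', R, N, M1, M2, M4, hP, hR, hz, hN, k1, k2, k4⟩ :=
    pk_add (pk_add (pk_add jA jY0) jY2) jB
  have hW : W6 A X Y0 Y1 Y2 = 2 * sm 6 A + 12 * card X + (12 * card Y0 + 3 * sm 12 Y0) +
    (12 * card Y1 + 3 * sm 13 Y1) + (10 * card Y2 + 3 * sm 11 Y2) := rfl
  have hN' : 6 * N ≤ W6 A X Y0 Y1 Y2 + 14 * (K * Δ) := by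
    rw [hW]
    refine hN.trans (le_of_eq ?_)
    ring
  have hle : replicate N 3 + replicate M1 1 + replicate M2 2 + replicate M4 4 ≤ S := by
    rw [le_iff_count]
    intro a
    simp only [count_add, count_replicate]
    by_cases e3 : 3 = a
    · subst e3
      simp
      omega
    · by_cases e1 : 1 = a
      · subst e1
        simp
        omega
      · by_cases e2 : 2 = a
        · subst e2
          simp
          omega
        · by_cases e4 : 4 = a
          · subst e4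
            simp
            omega
          · simp [e1, e2, e3, e4]
  obtain ⟨S', hS'⟩ := Multiset.le_iff_exists_add.mp hle
  have c1 : S.count 1 = M1 + S'.count 1 := by
    rw [hS']
    simp [count_add, count_replicate]
  have c2 : S.count 2 = M2 + S'.count 2 := by
    rw [hS']
    simp [count_add, count_replicate]
  have c3 : S.count 3 = N + S'.count 3 := by
    rw [hS']
    simp [count_add, count_replicate]
  have c4 : S.count 4 = M4 + S'.count 4 := by
    rw [hS']
    simp [count_add, count_replicate]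
  have c5 : S.count 5 = S'.count 5 := by
    rw [hS']
    simp [count_add, count_replicate]
  have hS'm : ∀ v ∈ S', 1 ≤ v ∧ v ≤ 5 := by
    intro v hv
    apply hS v
    rw [hS', mem_add]
    exact Or.inr hv
  have hRm : ∀ v ∈ R, 7 ≤ v ∧ v ≤ Δ := by
    intro v hv
    have h5 : v ∈ A + Y0 + Y2 + (X + Y1) := by
      rw [hP, mem_add]
      exact Or.inr hv
    simp only [mem_add] at h5
    rcases h5 with ((h5 | h5) | h5) | (h5 | h5)
    · have := hA v h5
      omega
    · have := hY0 v h5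
      omega
    · have := hY2 v h5
      omega
    · have := hX v h5
      omega
    · have := hY1 v h5
      omega
  have hall : S + (A + X + Y0 + Y1 + Y2 + Z) =
      (P' + replicate N 3 + replicate M1 1 + replicate M2 2 + replicate M4 4) +
      (S' + Z + R) := by
    have h5 : A + X + Y0 + Y1 + Y2 = P' + R := by
      rw [← hP]
      abel
    rw [hS', h5]
    abel
  have hev := evn _ hz
  have hsm0 : sm 6 S' = 0 := by
    rw [sm, sum_eq_zero_iff]
    intro x hx
    obtain ⟨v, hv, rfl⟩ := mem_map.mp hx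
    have := hS'm v hv
    omega
  have hdem : PDS.demand (S' + Z + R) = sm 6 Z + sm 6 R := by
    have : PDS.demand (S' + Z + R) = sm 6 (S' + Z + R) := rfl
    rw [this, sm_add, sm_add, hsm0, zero_add]
  have hsup : S'.count 1 + 2 * S'.count 2 + 2 * S'.count 3 + 2 * S'.count 4 + S'.count 5 ≤
      PDS.supply (S' + Z + R) := by
    simp only [PDS.supply, count_add]
    omega
  have hUU : UU S = S.count 1 + 2 * S.count 2 + 2 * S.count 4 := rfl
  have hrz : PDS.Rz (S' + Z + R) := by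
    apply PDS.main_all Δ
    · intro v hv
      rw [mem_add, mem_add] at hv
      rcases hv with (hv | hv) | hv
      · have := hS'm v hv
        omega
      · have := hZ v hv
        omega
      · have := hRm v hv
        omega
    · rw [hall, sum_add] at hsum
      omega
    · rw [hdem]
      refine le_trans ?_ hsup
      rw [hUU] at hd
      omega
  rw [hall]
  exact pz_add hz (pz_of_rz hrz)

end Pool.Agent.PDZ.H89
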